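import Pool.Agent.Helper10.RC.Homs

/-!
# MP_b55b7c_an: matrices over matrix algebras
-/

open scoped ENNReal NNReal InnerProductSpace ComplexOrder
open Filter Topology

attribute [-instance] CStarMatrix.instAlgebra CStarMatrix.instModule CStarMatrix.instSMul
  CStarMatrix.instMulAction CStarMatrix.instDistribMulAction

set_option linter.unusedSectionVars false

noncomputable section
namespace RC
universe u

variable {A : Type u} [CStarAlgebra A] [PartialOrder A] [StarOrderedRing A]
variable {ι κ μ ν : Type} [Fintype ι] [DecidableEq ι] [Fintype κ] [DecidableEq κ]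
  [Fintype μ] [DecidableEq μ] [Fintype ν] [DecidableEq ν]

theorem flat77_apply (X : CStarMatrix ι κ (CStarMatrix ν ν A)) (p : ι × ν) (q : κ × ν) :
    flat X p q = X p.1 q.1 p.2 q.2 := rfl

theorem flat77_sum {I : Type} (s : Finset I) (f : I → CStarMatrix ι κ A) (i : ι) (j : κ) :
    (∑ k ∈ s, f k) i j = ∑ k ∈ s, f k i j := Matrix.sum_apply _ _ _ _

theorem flat77_mul (X : CStarMatrix ι κ (CStarMatrix ν ν A))
    (Y : CStarMatrix κ μ (CStarMatrix ν ν A)) : flat (X * Y) = flat X * flat Y := by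
  ext p q
  rw [flat77_apply, CStarMatrix.mul_apply, CStarMatrix.mul_apply, Fintype.sum_prod_type,
    flat77_sum]
  refine Finset.sum_congr rfl fun j _ => ?_
  rw [CStarMatrix.mul_apply]
  rfl

theorem flat77_conj (X : CStarMatrix ι κ (CStarMatrix ν ν A)) :
    flat X.conjTranspose = (flat X).conjTranspose := by
  ext p q
  rfl

theorem flat77_sub (X Y : CStarMatrix ι κ (CStarMatrix ν ν A)) :
    flat (X - Y) = flat X - flat Y := by
  ext p q
  rfl

/-- `flat` as a *-homomorphism. -/
def flatH77 (ι ν : Type) [Fintype ι] [DecidableEq ι] [Fintype ν] [DecidableEq ν] :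
    CStarMatrix ι ι (CStarMatrix ν ν A) →⋆ₐ[ℂ] CStarMatrix (ι × ν) (ι × ν) A where
  toFun := flat
  map_one' := by
    ext p q
    rw [flat77_apply, CStarMatrix.one_apply, CStarMatrix.one_apply]
    by_cases h1 : p.1 = q.1
    · rw [if_pos h1, CStarMatrix.one_apply]
      by_cases h2 : p.2 = q.2
      · rw [if_pos h2, if_pos (Prod.ext h1 h2)]
      · rw [if_neg h2, if_neg (fun h => h2 (by rw [h]))]
    · rw [if_neg h1, if_neg (fun h => h1 (by rw [h]))]
      rfl
  map_mul' x y := flat77_mul x y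
  map_zero' := by
    ext p q
    rfl
  map_add' x y := by
    ext p q
    rfl
  commutes' c := by
    ext p q
    rw [flat77_apply, cm_algebraMap_apply, cm_algebraMap_apply]
    by_cases h1 : p.1 = q.1
    · rw [if_pos h1, cm_algebraMap_apply]
      by_cases h2 : p.2 = q.2
      · rw [if_pos h2, if_pos (Prod.ext h1 h2)]
      · rw [if_neg h2, if_neg (fun h => h2 (by rw [h]))]
    · rw [if_neg h1, if_neg (fun h => h1 (by rw [h]))]
      rfl
  map_star' x := flat77_conj x

theorem flat77_inj : Function.Injective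
    (flat : CStarMatrix ι κ (CStarMatrix ν ν A) → CStarMatrix (ι × ν) (κ × ν) A) := by
  intro X Y h
  ext i j a b
  exact congrFun (congrFun h (i, a)) (j, b)

theorem flat77_surj (v : CStarMatrix (ι × ν) (κ × ν) A) :
    ∃ w : CStarMatrix ι κ (CStarMatrix ν ν A), flat w = v :=
  ⟨CStarMatrix.ofMatrix fun i j => CStarMatrix.ofMatrix fun a b => v (i, a) (j, b), by
    ext p q; rfl⟩

theorem flat77_norm (X : CStarMatrix ι ι (CStarMatrix ν ν A)) : ‖flat X‖ = ‖X‖ :=
  NonUnitalStarAlgHom.norm_map (flatH77 (A := A) ι ν) flat77_inj X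

theorem flat77_nonneg (X : CStarMatrix ι ι (CStarMatrix ν ν A)) : 0 ≤ X ↔ 0 ≤ flat X := by
  constructor
  · intro h
    exact map_nonneg (flatH77 (A := A) ι ν) h
  · intro h
    obtain ⟨s, hs⟩ := CStarAlgebra.nonneg_iff_eq_mul_star_self.mp h
    obtain ⟨t, rfl⟩ := flat77_surj s
    have h1 : flat X = flat (t * star t) := by
      rw [hs, flat77_mul]
      congr 1
    rw [flat77_inj h1]
    exact mul_star_self_nonneg t

theorem flatP : FlatP.{u} := by
  intro A _ _ _ ν _ _ ι κ _ _ _ _ X Y
  refine ⟨flat77_nonneg X, ⟨?_, ?_⟩, ?_⟩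
  · intro h ε hε
    obtain ⟨v, hv⟩ := h ε hε
    refine ⟨flat v, ?_⟩
    rw [← flat77_conj, ← flat77_mul, ← flat77_mul, ← flat77_sub, flat77_norm]
    exact hv
  · intro h ε hε
    obtain ⟨w, hw⟩ := h ε hε
    obtain ⟨v, rfl⟩ := flat77_surj w
    refine ⟨v, ?_⟩
    rw [← flat77_conj, ← flat77_mul, ← flat77_mul, ← flat77_sub, flat77_norm] at hw
    exact hw
  · intro f hf hX
    exact starHom_cfc (flatH77 (A := A) ι ν) f hf X (IsSelfAdjoint.of_nonneg hX)

end RC
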