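import Pool.Agent.Helper70.RC.Goals

/-!
# Project TW (MP_c7dfba_nt), packet PRIM: finitely many elements algebraic over `R(t)` are presented by
one integral element.
-/

namespace Pool.Agent.Helper77.RC

open Polynomial

universe u v

/-- Common denominators of the coefficients. -/
theorem clear {A : Type*} {K : Type*} [CommRing A] [IsDomain A] [Field K] [Algebra A K]
    [IsFractionRing A K] (q : K[X]) :
    ∃ (g : A) (h : A[X]), g ≠ 0 ∧ h.map (algebraMap A K) = C (algebraMap A K g) * q := by
  obtain ⟨b, hbM, hb⟩ := IsLocalization.integerNormalization_spec (nonZeroDivisors A) q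
  refine ⟨b, IsLocalization.integerNormalization (nonZeroDivisors A) q, nonZeroDivisors.ne_zero hbM, ?_⟩
  rw [hb, ← smul_eq_C_mul, algebraMap_smul]

theorem prim_aux {A : Type*} {K : Type*} {M : Type*} [CommRing A] [IsDomain A] [IsIntegrallyClosed A]
    [Field K] [CharZero K] [Algebra A K] [IsFractionRing A K] [Field M] [Algebra A M] [Algebra K M]
    [IsScalarTower A K M] (n : ℕ) (y : Fin n → M) (hy : ∀ j, IsAlgebraic K (y j)) :
    ∃ (η : M) (f p w : A[X]) (c g : A) (h : Fin n → A[X]), f.Monic ∧ c ≠ 0 ∧ g ≠ 0 ∧
      p * f + w * derivative f = C c ∧ aeval η f = 0 ∧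
      (∀ j, aeval η (h j) = y j * algebraMap A M g) ∧
      ∀ Q : A[X], aeval η Q = 0 → f ∣ Q := by
  have hAK : Function.Injective (algebraMap A K) := IsFractionRing.injective A K
  have hKM : Function.Injective (algebraMap K M) := (algebraMap K M).injective
  have hAM : Function.Injective (algebraMap A M) := by
    rw [IsScalarTower.algebraMap_eq A K M]
    exact hKM.comp hAK
  have : FaithfulSMul A M := (faithfulSMul_iff_algebraMap_injective A M).2 hAM
  -- the finite extension and a primitive element
  let E : IntermediateField K M := IntermediateField.adjoin K (Set.range y)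
  have hfin : FiniteDimensional K E := by
    refine IntermediateField.finiteDimensional_adjoin fun x hx => ?_
    obtain ⟨j, rfl⟩ := hx
    exact (hy j).isIntegral
  obtain ⟨θ, hθ⟩ := Field.exists_primitive_element K E
  have hθa : IsAlgebraic K (θ : M) := by
    have h1 : IsAlgebraic K θ := Algebra.IsAlgebraic.isAlgebraic θ
    exact h1.algebraMap
  have hθA : IsAlgebraic A (θ : M) := (IsFractionRing.isAlgebraic_iff A K M).2 hθa
  obtain ⟨d, hd0, hd⟩ := hθA.exists_integral_multiple
  set η : M := d • (θ : M) with hη
  -- the minimal polynomial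
  set f := minpoly A η with hf
  have hfm : f.Monic := minpoly.monic hd
  have hfK : minpoly K η = f.map (algebraMap A K) := minpoly.isIntegrallyClosed_eq_field_fractions' K hd
  have hηK : IsIntegral K η := hd.tower_top
  have hsep : (f.map (algebraMap A K)).Separable := by
    rw [← hfK]
    exact (minpoly.irreducible hηK).separable
  obtain ⟨a, b, hab⟩ := hsep
  obtain ⟨ga, pa, hga, hpa⟩ := clear (A := A) a
  obtain ⟨gb, pb, hgb, hpb⟩ := clear (A := A) b
  -- the elements y j
  have hyE : ∀ j, ∃ q : K[X], aeval η q = y j := by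
    intro j
    have h1 : (⟨y j, IntermediateField.subset_adjoin K _ ⟨j, rfl⟩⟩ : E) ∈ (⊤ : IntermediateField K E) :=
      IntermediateField.mem_top
    rw [← hθ, ← IntermediateField.mem_toSubalgebra,
      IntermediateField.adjoin_simple_toSubalgebra_of_isAlgebraic (Algebra.IsAlgebraic.isAlgebraic θ),
      Algebra.adjoin_singleton_eq_range_aeval] at h1
    obtain ⟨q, hq⟩ := h1
    have hq' : aeval θ q = (⟨y j, IntermediateField.subset_adjoin K _ ⟨j, rfl⟩⟩ : E) := hq
    have h2 : aeval (θ : M) q = y j := by
      have h3 := congrArg (algebraMap E M) hq'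
      rw [← aeval_algebraMap_apply] at h3
      exact h3
    have hdK : algebraMap A K d ≠ 0 := fun h => hd0 (hAK (by rw [h, map_zero]))
    refine ⟨q.comp (C (algebraMap A K d)⁻¹ * X), ?_⟩
    rw [aeval_comp, map_mul, aeval_C, aeval_X, hη, Algebra.smul_def, IsScalarTower.algebraMap_apply A K M,
      ← mul_assoc, ← map_mul, inv_mul_cancel₀ hdK, map_one, one_mul, h2]
  choose q hq using hyE
  choose gj hj hgj hhj using fun j => clear (A := A) (q j)
  refine ⟨η, f, C gb * pa, C ga * pb, ga * gb, ∏ j, gj j, fun j => C (∏ i ∈ Finset.univ.erase j, gj i) * hj j,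
    hfm, mul_ne_zero hga hgb, Finset.prod_ne_zero_iff.2 fun j _ => hgj j, ?_, minpoly.aeval A η, fun j => ?_,
    fun Q hQ => minpoly.isIntegrallyClosed_dvd hd hQ⟩
  · apply map_injective _ hAK
    rw [Polynomial.map_add, Polynomial.map_mul, Polynomial.map_mul, Polynomial.map_mul, Polynomial.map_mul,
      hpa, hpb, map_C, map_C, map_C, ← derivative_map, map_mul]
    have h1 : C (algebraMap A K gb) * (C (algebraMap A K ga) * a) * map (algebraMap A K) f +
        C (algebraMap A K ga) * (C (algebraMap A K gb) * b) * derivative (map (algebraMap A K) f) =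
        C (algebraMap A K ga) * C (algebraMap A K gb) *
          (a * map (algebraMap A K) f + b * derivative (map (algebraMap A K) f)) := by ring
    rw [h1, hab, mul_one, C_mul]
  · rw [map_mul, aeval_C]
    have h1 : aeval η (hj j) = algebraMap A M (gj j) * y j := by
      rw [← aeval_map_algebraMap K η (hj j), hhj, map_mul, aeval_C, hq, ← IsScalarTower.algebraMap_apply]
    rw [h1, ← mul_assoc, ← map_mul, Finset.prod_erase_mul _ _ (Finset.mem_univ j), mul_comm]

theorem prim : Pool.Agent.Helper70.RC.PRIM.{u, v} := by
  intro R M _ _ _ _ t ht n y hy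
  let algRM : Algebra R[X] M := (aeval t).toRingHom.toAlgebra
  have halg : ∀ p : R[X], algebraMap R[X] M p = aeval t p := fun p => rfl
  have hinj : Function.Injective (algebraMap R[X] M) := transcendental_iff_injective.1 ht
  have hfs : FaithfulSMul R[X] M := (faithfulSMul_iff_algebraMap_injective R[X] M).2 hinj
  let algKM : Algebra (FractionRing R[X]) M := FractionRing.liftAlgebra R[X] M
  have htow : IsScalarTower R[X] (FractionRing R[X]) M := inferInstance
  have hchar : CharZero (FractionRing R[X]) :=
    charZero_of_injective_algebraMap (IsFractionRing.injective R[X] (FractionRing R[X]))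
  -- the field `R(t)` is the image of the field of fractions
  have hmem : ∀ κ : FractionRing R[X],
      algebraMap (FractionRing R[X]) M κ ∈ IntermediateField.adjoin R ({t} : Set M) := by
    intro κ
    obtain ⟨r, s, hs, rfl⟩ := IsFractionRing.div_surjective (A := R[X]) κ
    rw [map_div₀, ← IsScalarTower.algebraMap_apply, ← IsScalarTower.algebraMap_apply, halg, halg]
    exact (IntermediateField.mem_adjoin_simple_iff R _).2 ⟨r, s, rfl⟩
  let φ : FractionRing R[X] →+* IntermediateField.adjoin R ({t} : Set M) :=
    (algebraMap (FractionRing R[X]) M).codRestrict _ hmem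
  have hφ : ∀ κ, ((φ κ : IntermediateField.adjoin R ({t} : Set M)) : M) = algebraMap (FractionRing R[X]) M κ :=
    fun κ => rfl
  have hφs : Function.Surjective φ := by
    intro x
    obtain ⟨r, s, h⟩ := (IntermediateField.mem_adjoin_simple_iff R _).1 x.2
    refine ⟨algebraMap R[X] (FractionRing R[X]) r / algebraMap R[X] (FractionRing R[X]) s, Subtype.ext ?_⟩
    rw [hφ, map_div₀, ← IsScalarTower.algebraMap_apply, ← IsScalarTower.algebraMap_apply, halg, halg, h]
  have hyK : ∀ j, IsAlgebraic (FractionRing R[X]) (y j) := by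
    intro j
    obtain ⟨p, hp0, hp⟩ := hy j
    obtain ⟨p', hp'⟩ := map_surjective φ hφs p
    refine ⟨p', ?_, ?_⟩
    · rintro rfl
      exact hp0 (by rw [← hp', Polynomial.map_zero])
    · rw [← hp', aeval_def, eval₂_map] at hp
      rw [aeval_def]
      exact hp
  obtain ⟨η, f, p, w, c, g, h, h1, h2, h3, h4, h5, h6, h7⟩ :=
    prim_aux (A := R[X]) (K := FractionRing R[X]) n y hyK
  have key : ∀ Q : R[X][X], aevalAeval t η Q = aeval η Q := by
    intro Q
    induction Q using Polynomial.induction_on' with
    | add p q hp hq => rw [map_add, map_add, hp, hq]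
    | monomial n a =>
      rw [← C_mul_X_pow_eq_monomial, map_mul, map_mul, map_pow, map_pow, aevalAeval_C, aevalAeval_Y, aeval_C,
        aeval_X, halg]
  refine ⟨η, f, p, w, c, g, h, h1, h2, h3, h4, ?_, fun j => ?_, fun Q hQ => h7 Q ?_⟩
  · rw [key, h5]
  · rw [key, h6, halg]
  · rw [← key, hQ]

end Pool.Agent.Helper77.RC
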